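import Pool.Agent.Mg.Fdeef5c.Gbae07f

open CategoryTheory AlgebraicGeometry IsLocalRing Pool.Agent.MP_deef5c_ag

universe u v

namespace Pool.Agent.Results.MP_deef5c_ag.WeightObstruction

/-- Let a subgroup `P` and an element `γ` fix a rational point `x` of a smooth curve and generate
a non-cyclic group.  Assume that `P` acts trivially on `m / m ^ 2` and that `γ` acts on it by
`c ≠ 1`.  If zero is the only homomorphism `φ` from `P` to the additive group of the residue field
with `φ (γ g γ⁻¹) = c φ (g)`, then every local Artinian ring to which the action lifts has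
characteristic `p`. -/
theorem result (p : ℕ) [Fact p.Prime] (k : Type u) [Field k] [CharP k p]
    (X : Scheme.{u}) [IsIntegral X] (f : X ⟶ Spec (.of k)) [IsSeparated f]
    [SmoothOfRelativeDimension 1 f]
    (G : Type v) [Group G] [Finite G] (ρ : G →* Aut X) (hρ : Function.Injective ρ)
    (hρk : ∀ g, (ρ g).hom ≫ f = f)
    (x : X) (s : Spec (.of k) ⟶ X) (hs : s ≫ f = 𝟙 _) (hx : s (closedPoint k) = x)
    (P : Subgroup G) (γ : G) (hP : ∀ g ∈ P, (ρ g).hom x = x) (hγ : (ρ γ).hom x = x)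
    (hc : ¬ IsCyclic (Subgroup.closure (insert γ (P : Set G))))
    (hw : ∀ (g : G) (hg : g ∈ P), ∀ y ∈ maximalIdeal (X.presheaf.stalk x),
      (locMap (ρ g).hom x (hP g hg)).hom y - y ∈ maximalIdeal (X.presheaf.stalk x) ^ 2)
    (c : X.presheaf.stalk x) (hcγ : ∀ y ∈ maximalIdeal (X.presheaf.stalk x),
      (locMap (ρ γ).hom x hγ).hom y - c * y ∈ maximalIdeal (X.presheaf.stalk x) ^ 2)
    (hc1 : c - 1 ∉ maximalIdeal (X.presheaf.stalk x))
    (hφ : ∀ φ : P → ResidueField (X.presheaf.stalk x), (∀ g g', φ (g * g') = φ g + φ g') →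
      (∀ g g' : P, (g' : G) = γ * g * γ⁻¹ → φ g' = residue (X.presheaf.stalk x) c * φ g) →
      ∀ g, φ g = 0)
    (A : Type u) [CommRing A] [IsLocalRing A] [IsArtinianRing A] (π : A →+* k)
    (hπ : Function.Surjective π) (hA : LiftsTo f ρ π) : ringChar A = p := by
  obtain ⟨X', f', ι, ρ', hsm, hι, hρA, hred⟩ := hA
  set K : Subgroup G := Subgroup.closure (insert γ (P : Set G)) with hKdef
  have hK : ∀ g ∈ K, (ρ g).hom x = x := fix_closure ρ x _ (by
    rintro g (rfl | hg)
    · exact hγ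
    · exact hP g hg)
  have hPK : P ≤ K := fun g hg => Subgroup.subset_closure (Or.inr hg)
  let γ0 : K := ⟨γ, Subgroup.subset_closure (Or.inl rfl)⟩
  have hgen : Subgroup.closure (insert γ0 (P.subgroupOf K : Set K)) = ⊤ := by
    rw [← Subgroup.closure_closure_coe_preimage (k := insert γ (P : Set G))]
    congr 1
    ext g
    simp [γ0, Subtype.ext_iff, Subgroup.mem_subgroupOf]
  obtain ⟨g0, hg0⟩ : ∃ g : K, g ≠ 1 := by
    by_contra hh
    push Not at hh
    have : Subsingleton K := ⟨fun a b => by rw [hh a, hh b]⟩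
    exact hc inferInstance
  obtain ⟨B, _, _, _, ψ, t, T, S, h, hne, hmax, hT⟩ :=
    reduce hρ hρk hs hx K hK g0 hg0 hπ hι hρA hred
  obtain ⟨a, ha⟩ := S.res c
  have hloc : IsLocalHom (ψ.comp (algebraMap A B)) := ⟨fun r hr => by
    by_contra hu
    rw [RingHom.comp_apply, S.zero_of_mem ((mem_maximalIdeal _).2 hu)] at hr
    exact not_isUnit_zero hr⟩
  have hca : residue _ c = ResidueField.map (ψ.comp (algebraMap A B)) (residue A a) := by
    rw [ResidueField.map_residue, ← sub_eq_zero, ← map_sub, residue_eq_zero_iff, hmax,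
      Ideal.mem_span_singleton]
    exact ha
  rw [hmax] at hcγ hc1
  refine ringChar_of_eq_zero p (h.main_wt S hne hc (P.subgroupOf K) γ0 hgen (fun g hg => ?_) a ?_ ?_
    (fun φ h1 h2 g => ?_) p (unit_of_prime_ne hπ p))
  · have h1 := hw g hg (ψ t) (hmax ▸ Ideal.subset_span rfl)
    rw [hmax, Ideal.span_singleton_pow, Ideal.mem_span_singleton] at h1
    rwa [map_sub, hT g t]
  · have h1 := hcγ (ψ t) (Ideal.subset_span rfl)
    rw [Ideal.span_singleton_pow, Ideal.mem_span_singleton] at h1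
    have h2 := mul_dvd_mul ha (dvd_refl (ψ t))
    rw [← pow_two] at h2
    rw [hT γ0 t]
    convert dvd_add h1 h2 using 1
    ring
  · by_contra hnu
    refine hc1 (Ideal.mem_span_singleton.2 ?_)
    have h1 := S.zero_of_mem ((mem_maximalIdeal _).2 hnu)
    rw [map_sub, map_sub, map_one, map_one, sub_eq_zero] at h1
    rwa [h1] at ha
  · have h3 := hφ (fun g => ResidueField.map (ψ.comp (algebraMap A B))
      (φ ⟨⟨g, hPK g.2⟩, g.2⟩)) (fun g g' => by rw [← map_add, ← h1]; rfl) (fun g g' e => by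
        rw [hca, ← map_mul, ← h2 _ ⟨⟨g', hPK g'.2⟩, g'.2⟩ (Subtype.ext e)]) ⟨g, g.2⟩
    exact (map_eq_zero _).1 h3

end Pool.Agent.Results.MP_deef5c_ag.WeightObstruction
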