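import Pool.Agent.Mg.Fdeef5c.Ga01f84

open CategoryTheory AlgebraicGeometry Pool.Agent.MP_deef5c_ag Pool.Agent.MP_deef5c_ag.E

universe u

namespace Pool.Agent.Results.MP_deef5c_ag.CharPowerExample

/-- Over every algebraically closed field `k` of characteristic three there is a smooth projective
integral curve with a faithful action of `(Z/3)^2` such that the greatest characteristic of a local
Artinian `W(k)`-algebra with residue field `k` to which the action lifts is `3^n` with `n ≥ 2`;
so a hull of the deformation functor has characteristic `3^n`. -/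
theorem result (k : Type u) [Field k] [IsAlgClosed k] [CharP k 3] :
    ∃ (X : Scheme.{u}) (f : X ⟶ Spec (.of k)) (ρ : Multiplicative (ZMod 3 × ZMod 3) →* Aut X) (n : ℕ),
      IsIntegral X ∧ IsProj f ∧ SmoothOfRelativeDimension 1 f ∧ Function.Injective ρ ∧
      (∀ g, (ρ g).hom ≫ f = f) ∧ 2 ≤ n ∧
      IsGreatest {m : ℕ | ∃ (A : Type u) (_ : CommRing A) (_ : IsLocalRing A) (_ : IsArtinianRing A)
        (_ : Algebra (WittVector 3 k) A) (π : A →+* k),
        (∀ w, π (algebraMap (WittVector 3 k) A w) = w.coeff 0) ∧ LiftsTo f ρ π ∧ ringChar A = m}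
        (3 ^ n) ∧
      ∀ (R : Type u) [CommRing R] [IsLocalRing R] [IsNoetherianRing R] [Algebra (WittVector 3 k) R]
        (π : R →+* k), (∀ w, π (algebraMap (WittVector 3 k) R w) = w.coeff 0) → Versal 3 f ρ π →
        ringChar R = 3 ^ n :=
  final k

end Pool.Agent.Results.MP_deef5c_ag.CharPowerExample
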