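import Pool.Agent.Mg.Fdeef5c.Gff4579

open CategoryTheory AlgebraicGeometry IsLocalRing Pool.Agent.MP_deef5c_ag Pool.Agent.MP_deef5c_ag.O

universe u v

namespace Pool.Agent.Results.MP_deef5c_ag.CyclicSylowGlobal

/-- Let a finite group `G` act faithfully on a smooth curve `X` over an algebraically closed field
of characteristic `p`, and assume that all inertia groups have cyclic Sylow `p`-subgroups.  Then the
action lifts to local Artinian rings of unbounded characteristic as soon as it lifts to one local
Artinian ring with `p ≠ 0`, and this happens exactly when each inertia group `G_x` is cyclic or the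
prime-to-`p` part of `|G_x|` divides `i(σ)` for the generators `σ` of its Sylow `p`-subgroup. -/
theorem result (p : ℕ) [Fact p.Prime] (k : Type u) [Field k] [IsAlgClosed k] [CharP k p]
    (X : Scheme.{u}) [IsIntegral X] (f : X ⟶ Spec (.of k)) [IsSeparated f] [QuasiCompact f]
    [SmoothOfRelativeDimension 1 f]
    (G : Type v) [Group G] [Finite G] (ρ : G →* Aut X) (hρ : Function.Injective ρ)
    (hρk : ∀ g, (ρ g).hom ≫ f = f)
    (hG : ∀ x : X, IsClosed {x} → ∀ P : Sylow p (stab ρ x), IsCyclic P) :
    List.TFAE [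
      ∀ N : ℕ, ∃ (A : Type u) (_ : CommRing A) (_ : IsLocalRing A) (_ : IsArtinianRing A)
        (π : A →+* k), Function.Surjective π ∧ (p : A) ^ N ≠ 0 ∧ LiftsTo f ρ π,
      ∃ (A : Type u) (_ : CommRing A) (_ : IsLocalRing A) (_ : IsArtinianRing A)
        (π : A →+* k), Function.Surjective π ∧ (p : A) ≠ 0 ∧ LiftsTo f ρ π,
      ∀ x : X, IsClosed {x} → IsCyclic (stab ρ x) ∨
        ∀ σ : stab ρ x, orderOf σ = ordProj[p] (Nat.card (stab ρ x)) → ∀ d : ℕ,
          Ideal.span (Set.range fun y => (locMap (ρ σ).hom x σ.2).hom y - y) =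
            maximalIdeal (X.presheaf.stalk x) ^ d → ordCompl[p] (Nat.card (stab ρ x)) ∣ d] :=
  gfinal f ρ p hρ hρk hG

end Pool.Agent.Results.MP_deef5c_ag.CyclicSylowGlobal
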