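import Pool.Agent.Mg.Fdeef5c.G76b53f

open PowerSeries IsLocalRing Pool.Agent.MP_deef5c_ag.O

universe u v

namespace Pool.Agent.Results.MP_deef5c_ag.CyclicSylowLocal

/-- Local actions with cyclic Sylow `p`-subgroups.  For a faithful action of a finite group `G` with
cyclic Sylow `p`-subgroups on `k⟦X⟧`, with `k` algebraically closed of characteristic `p`, the
following are equivalent: the action lifts to a complete discrete valuation ring of characteristic
zero; it lifts to local Artinian rings of unbounded characteristic; it lifts to a local Artinian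
ring with `p ≠ 0`; `G` is cyclic or the prime-to-`p` part of `|G|` divides the order of vanishing
of `σ X - X` for the generators `σ` of the Sylow `p`-subgroups. -/
theorem result (p : ℕ) [Fact p.Prime] (k : Type u) [Field k] [IsAlgClosed k] [CharP k p]
    (G : Type v) [Group G] [Finite G] (hG : ∀ P : Sylow p G, IsCyclic P)
    (ρ : G →* (k⟦X⟧ ≃ₐ[k] k⟦X⟧)) (hρ : Function.Injective ρ) :
    List.TFAE [
      ∃ (O : Type u) (_ : CommRing O) (_ : IsDomain O) (_ : IsDiscreteValuationRing O)
        (_ : IsAdicComplete (maximalIdeal O) O) (_ : CharZero O) (π : O →+* k),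
        Function.Surjective π ∧ LocLifts ρ π,
      ∀ N : ℕ, ∃ (A : Type u) (_ : CommRing A) (_ : IsLocalRing A) (_ : IsArtinianRing A)
        (π : A →+* k), Function.Surjective π ∧ (p : A) ^ N ≠ 0 ∧ LocLifts ρ π,
      ∃ (A : Type u) (_ : CommRing A) (_ : IsLocalRing A) (_ : IsArtinianRing A)
        (π : A →+* k), Function.Surjective π ∧ (p : A) ≠ 0 ∧ LocLifts ρ π,
      IsCyclic G ∨ ∀ σ : G, orderOf σ = ordProj[p] (Nat.card G) →
        ((ordCompl[p] (Nat.card G) : ℕ) : ℕ∞) ∣ (ρ σ X - X).order] :=
  final p k G hG ρ hρ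

end Pool.Agent.Results.MP_deef5c_ag.CyclicSylowLocal
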